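import Mathlib

namespace Pool.Agent.MP_824cb5_co

/-- `A` is a `B_h` set over the integers: distinct coefficient vectors (indexed by `A`) of
norm `h` give distinct elements. -/
def IsBh {G : Type} [AddCommGroup G] (h : ℕ) (A : Finset G) : Prop :=
  ∀ lam mu : G → ℤ, ∑ a ∈ A, |lam a| = h → ∑ a ∈ A, |mu a| = h →
    ∑ a ∈ A, lam a • a = ∑ a ∈ A, mu a • a → ∀ a ∈ A, lam a = mu a

/-- largest size of a nonempty `B_h` set over the integers, `0` if there is none -/
noncomputable def sigmaPM (G : Type) [AddCommGroup G] (h : ℕ) : ℕ :=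
  sSup {k : ℕ | ∃ A : Finset G, A.Nonempty ∧ IsBh h A ∧ A.card = k}

end Pool.Agent.MP_824cb5_co
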